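import Pool.Agent.Helper8.Med.D

/-!
# The median inequality for the sum-of-digits measures `P_t`

`P_t` is defined by the recursion of the problem: `P_1` is the point mass at `0`, `P_{2n} = P_n` and
`P_{2n+1}(d) = (1/2) P_n(d-1) + (1/2) P_{n+1}(d+1)`.

* `P_t(ℕ) ≥ 1/2` and `P_t(-ℕ) ≥ 1/2` for every `t ≥ 1` (Q1).
* All cases of equality, in terms of the binary digits of `t`, and explicit lower bounds in the other
  cases.
* The same for the densities `μ_t`: the numbers `n` with `s (n + t) ≤ s n` have density at least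
  `1/2`, with equality if and only if any two ones in the binary expansion of `t` are at least `s t`
  places apart.
-/

set_option autoImplicit false

namespace Pool.Agent.Results.MP_23af5d_nt.MedianZero

open Finset Filter Topology
open Pool.Agent.Y471.CK (s)
open Pool.Agent.Helper8.Med (P OnesApart ZerosApart zeros)

/-- **The median inequality.** `s t` is the number of ones and `zeros t` the number of zeros in the
binary expansion of `t`.

1. The recursion which defines `P`.
2. For every `t ≥ 1`, `P t` is a probability measure with `P_t(ℕ) ≥ 1/2` and `P_t(-ℕ) ≥ 1/2`.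
3. For odd `t ≥ 3`: `P_t(ℕ) = 1/2` if and only if any two of the following places of the binary
   expansion of `t` are more than `zeros t` apart: the first place, the last place, and the places
   of the zeros. And `P_t(-ℕ) = 1/2` if and only if any two ones in the binary expansion of `t`
   are more than `s t - 2` places apart. In the other cases there are explicit lower bounds.
   (By `P (2 n) = P n` this covers all `t` except the powers of two, where `P_t` is the point mass
   at `0`.)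
4. For every `t ≥ 1` the densities `ρ d` of the sets `{n : s (n + t) - s n = d}` exist, and the sum
   `e` of the `ρ d` over `d ≤ 0`, which is the density of `{n : s (n + t) ≤ s n}`, is at least `1/2`,
   with equality if and only if any two ones in the binary expansion of `t` are more than
   `s t - 1` places apart; in the other cases `e ≥ 1/2 + (1/2) (1/4)^(s t - 1)`. -/
theorem result :
    ((∀ d : ℤ, P 1 d = if d = 0 then 1 else 0) ∧
      (∀ n : ℕ, 1 ≤ n → ∀ d : ℤ, P (2 * n) d = P n d) ∧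
      (∀ n : ℕ, 1 ≤ n → ∀ d : ℤ,
        P (2 * n + 1) d = 1 / 2 * P n (d - 1) + 1 / 2 * P (n + 1) (d + 1))) ∧
    (∀ t : ℕ, 1 ≤ t → (∀ d : ℤ, 0 ≤ P t d) ∧ HasSum (P t) 1 ∧
      ∃ a b : ℝ, HasSum (fun d : ℕ => P t d) a ∧ HasSum (fun d : ℕ => P t (-d)) b ∧
        1 / 2 ≤ a ∧ 1 / 2 ≤ b ∧
        (Odd t → 3 ≤ t →
          (a = 1 / 2 ↔ ZerosApart (zeros t) t) ∧ (b = 1 / 2 ↔ OnesApart (s t - 2) t) ∧
          (¬ ZerosApart (zeros t) t → 1 / 2 + 1 / 2 * (1 / 4) ^ min (zeros t) (s t - 1) ≤ a) ∧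
          (¬ OnesApart (s t - 2) t →
            1 / 2 + 1 / 2 * (1 / 4) ^ min (zeros t + 1) (s t - 2) ≤ b))) ∧
    (∀ t : ℕ, 1 ≤ t → ∃ (ρ : ℤ → ℝ) (e : ℝ),
      (∀ d : ℤ, Tendsto (fun N : ℕ =>
        (((Finset.range N).filter fun n => (s (n + t) : ℤ) - s n = d).card : ℝ) / N) atTop
          (𝓝 (ρ d))) ∧
      HasSum (fun d : ℕ => ρ (-d)) e ∧
      Tendsto (fun N : ℕ =>
        (((Finset.range N).filter fun n => s (n + t) ≤ s n).card : ℝ) / N) atTop (𝓝 e) ∧
      1 / 2 ≤ e ∧ (e = 1 / 2 ↔ OnesApart (s t - 1) t) ∧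
      (¬ OnesApart (s t - 1) t → 1 / 2 + 1 / 2 * (1 / 4) ^ (s t - 1) ≤ e)) := by
  refine ⟨⟨Helper8.Med.P_one, Helper8.Med.P_even, Helper8.Med.P_odd⟩, ?_, ?_⟩
  · intro t ht
    refine ⟨Helper8.Med.P_nonneg t ht, Helper8.Med.P_hasSum t ht, ?_⟩
    by_cases h : Odd t ∧ 3 ≤ t
    · obtain ⟨a, b, h1, h2, h3, h4, h5, h6, h7, h8⟩ :=
        Helper8.Med.odd_case t h.2 (Nat.odd_iff.mp h.1)
      exact ⟨a, b, h1, h2, h3, h4, fun _ _ => ⟨h5, h6, h7, h8⟩⟩
    · obtain ⟨a, b, h1, h2, h3, h4⟩ := Helper8.Med.all_case t ht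
      exact ⟨a, b, h1, h2, h3, h4, fun h5 h6 => absurd ⟨h5, h6⟩ h⟩
  · intro t ht
    obtain ⟨ρ, e, h1, h2, h3, h4⟩ := Helper8.Med.dens t ht
    refine ⟨ρ, e, fun d => (h1 d).congr fun N => ?_, h2, h3.congr fun N => ?_, h4⟩
    · unfold Pool.Agent.Y471.CK.S Pool.Agent.Y471.CK.pt Pool.Agent.Y471.CK.df
      rw [Finset.sum_boole]
    · unfold Pool.Agent.Y471.CK.S Helper8.Med.dn Pool.Agent.Y471.CK.df
      rw [Finset.sum_boole]
      congr 3
      ext n
      simp only [Finset.mem_filter]
      constructor <;> rintro ⟨a, b⟩ <;> exact ⟨a, by omega⟩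

end Pool.Agent.Results.MP_23af5d_nt.MedianZero
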